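import Pool.Agent.K1H12.MV.Real

/-!
# The `μ`-invariants of totally real fields and vectors in simple representations

`Qa` is the field of algebraic numbers, `Za` the ring of algebraic integers, and number fields are finite extensions
of `ℚ` inside `Qa`. For a number field `E`, `cyc p E` is its cyclotomic `ℤ_p`-extension `E^cyc`. For a set `S` of
prime numbers, `maxExt p S L` is the maximal abelian pro-`p` extension of `L` which is unramified outside the infinite
primes and the primes above the elements of `S`, and `MuZero p S E` says that the group `X_Σ = Gal(M_Σ/E^cyc)` is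
topologically finitely generated, that is, finitely generated over `ℤ_p`. Here `Σ` is the set of the primes of `E`
above `S` and the infinite primes. If `E` is totally real, `p` is odd and `p ∈ S`, this means `μ_p(E) = 0`.

* Let `N/F` be a Galois extension of number fields of any degree, and `𝓔` a set of intermediate fields such that every
  simple `𝔽_p[Gal(N/F)]`-module has a nonzero vector fixed by `Gal(N/E)` for some `E ∈ 𝓔`. Then `X_Σ` is finitely
  generated for `N` if and only if it is finitely generated for all `E ∈ 𝓔`.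
* Choose for every simple `𝔽_p`-representation of the Galois group of a totally real Galois extension of `ℚ` a nonzero
  vector `v`. Then `X_Σ` is finitely generated for all totally real fields if and only if it is for the totally real
  fields `ℚ(v)`. The vectors can be chosen such that the degrees of the fields `ℚ(v)` are prime to `p`.

The starting file `DominatedFixedFields` of this problem treats families of fixed fields of groups of orders prime to
`p`, by ray class groups and idempotents. Here the groups are arbitrary, so that the descent theorems for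
`p`-extensions are a special case. The file imports the starting files `Pool.Agent.Q60.MU.*` (`main_ineq`,
`exists_vector`); `Pool.Agent.K1H12.MV.*` is new.
-/

set_option autoImplicit false

namespace Pool.Agent.Results.MP_4e64b4_nt.RealVectorFields

open Pool.Agent.K1H12.MV Pool.Agent.Q60.MU IntermediateField Module
open scoped Pointwise

/-- The prime ideals which do not contain an element of `S` are unramified in `M/L`. -/
def UnramifiedOutside (S : Set ℕ) (L M : IntermediateField ℚ Qa) : Prop :=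
  ∀ P : Ideal Za, P.IsPrime → (∀ ℓ ∈ S, (ℓ : Za) ∉ P) → ActsTrivially L M (P.inertia Gal(Qa/ℚ))

/-- the maximal abelian pro-`p` extension of `L` which is unramified outside `S` and the infinite primes -/
noncomputable def maxExt (p : ℕ) (S : Set ℕ) (L : IntermediateField ℚ Qa) : IntermediateField ℚ Qa :=
  sSup {M | IsAbelianExt p L M ∧ UnramifiedOutside S L M}

/-- `X_Σ` is finitely generated for the field `E`. -/
def MuZero (p : ℕ) (S : Set ℕ) (E : IntermediateField ℚ Qa) : Prop := FGal (cyc p E) (maxExt p S (cyc p E))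

/-- inertia groups outside `S` -/
noncomputable def fam (S : Set ℕ) (P : Ideal Za) : Subgroup Gal(Qa/ℚ) := by
  classical
  exact if P.IsPrime ∧ ∀ ℓ ∈ S, (ℓ : Za) ∉ P then P.inertia Gal(Qa/ℚ) else ⊥

theorem smul_prime (g : Gal(Qa/ℚ)) (P : Ideal Za) : (g • P).IsPrime ↔ P.IsPrime := by
  have h1 : ∀ (g : Gal(Qa/ℚ)) (P : Ideal Za), P.IsPrime → (g • P).IsPrime := by
    intro g P hP
    refine ⟨fun h => hP.ne_top ?_, fun {x y} hxy => ?_⟩
    · rw [Ideal.eq_top_iff_one, Ideal.mem_pointwise_smul_iff_inv_smul_mem, smul_one] at h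
      exact (Ideal.eq_top_iff_one P).2 h
    · rw [Ideal.mem_pointwise_smul_iff_inv_smul_mem, smul_mul'] at hxy
      rw [Ideal.mem_pointwise_smul_iff_inv_smul_mem, Ideal.mem_pointwise_smul_iff_inv_smul_mem]
      exact hP.mem_or_mem hxy
  refine ⟨fun h => ?_, h1 g P⟩
  have h2 := h1 g⁻¹ _ h
  rwa [inv_smul_smul] at h2

theorem nat_mem (g : Gal(Qa/ℚ)) (P : Ideal Za) (n : ℕ) : (n : Za) ∈ g • P ↔ (n : Za) ∈ P := by
  have h1 : g⁻¹ • (n : Za) = n := by
    apply Subtype.ext
    show g⁻¹ ((n : ℕ) : Qa) = ((n : ℕ) : Qa)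
    exact map_natCast g⁻¹ n
  rw [Ideal.mem_pointwise_smul_iff_inv_smul_mem, h1]

theorem inertia_conj (g : Gal(Qa/ℚ)) (P : Ideal Za) :
    ∀ x ∈ P.inertia Gal(Qa/ℚ), g * x * g⁻¹ ∈ (g • P).inertia Gal(Qa/ℚ) := by
  intro x hx y
  have h1 := hx (g⁻¹ • y)
  rw [Submodule.mem_toAddSubgroup, Ideal.mem_pointwise_smul_iff_inv_smul_mem, smul_sub, ← mul_smul,
    ← mul_assoc, ← mul_assoc, inv_mul_cancel, one_mul, mul_smul]
  exact h1

theorem fam_fam (p : ℕ) (S : Set ℕ) : Fam p (fam S) := by
  classical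
  refine ⟨fun g P x hx => ?_, fun P => ?_, fun P _ => ?_⟩
  · unfold fam at hx ⊢
    by_cases h1 : P.IsPrime ∧ ∀ ℓ ∈ S, (ℓ : Za) ∉ P
    · rw [if_pos h1] at hx
      rw [if_pos ⟨(smul_prime g P).2 h1.1, fun ℓ hℓ h => h1.2 ℓ hℓ ((nat_mem g P ℓ).1 h)⟩]
      exact inertia_conj g P x hx
    · rw [if_neg h1, Subgroup.mem_bot] at hx
      rw [hx, mul_one, mul_inv_cancel]
      exact one_mem _
  · by_cases h1 : P.IsPrime ∧ ∀ ℓ ∈ S, (ℓ : Za) ∉ P
    · exact Or.inr h1.1
    · left
      unfold fam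
      rw [if_neg h1]
  · unfold fam
    by_cases h1 : P.IsPrime ∧ ∀ ℓ ∈ S, (ℓ : Za) ∉ P
    · rw [if_pos h1]
    · rw [if_neg h1]
      exact bot_le

theorem ext_iff {p : ℕ} {S : Set ℕ} {L M : IntermediateField ℚ Qa} :
    (IsAbelianExt p L M ∧ UnramifiedOutside S L M) ↔ AdmI p (fam S) L M := by
  classical
  constructor
  · rintro ⟨⟨h1, h2, h3, h4⟩, h5⟩
    refine ⟨h1, h2, h3, h4, fun P σ hσ hσL x hx => ?_⟩
    unfold fam at hσ
    by_cases h1 : P.IsPrime ∧ ∀ ℓ ∈ S, (ℓ : Za) ∉ P
    · rw [if_pos h1] at hσ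
      exact h5 P h1.1 h1.2 σ hσ hσL x hx
    · rw [if_neg h1, Subgroup.mem_bot] at hσ
      rw [hσ]
      rfl
  · intro h
    refine ⟨⟨h.le, h.normal, h.comm, h.exp⟩, fun P h1 h2 σ hσ hσL x hx => ?_⟩
    refine h.triv P σ ?_ hσL x hx
    unfold fam
    rw [if_pos ⟨h1, h2⟩]
    exact hσ

theorem muZero_iff {p : ℕ} {S : Set ℕ} {F : IntermediateField ℚ Qa} :
    MuZero p S F ↔ FGc p (fam S) F := by
  have h1 : ∀ L : IntermediateField ℚ Qa, maxExt p S L = maxI p (fam S) L := by
    intro L
    unfold maxExt maxI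
    congr 1
    ext M
    exact ext_iff
  unfold MuZero FGc
  rw [h1]

/-- `X_Σ` is finitely generated for `N` if and only if it is for all the fields in detecting sets of intermediate
fields of `N/F`. -/
def DetectionHolds (p : ℕ) [Fact p.Prime] (S : Set ℕ) : Prop :=
  ∀ F N : IntermediateField ℚ Qa, IsGaloisExt F N → ∀ 𝓔, Detecting p F N 𝓔 →
    (MuZero p S N ↔ ∀ E ∈ 𝓔, MuZero p S E)

/-- `X_Σ` is finitely generated for the totally real Galois extension `N` of `ℚ` if and only if it is for all the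
subfields of `N` in the set `𝓥`. -/
def LocalReduction (p : ℕ) (S : Set ℕ) (𝓥 : Set (IntermediateField ℚ Qa)) : Prop :=
  ∀ N : IntermediateField ℚ Qa, IsGaloisExt ⊥ N → TotReal N →
    (MuZero p S N ↔ ∀ E ∈ 𝓥, E ≤ N → MuZero p S E)

/-- `X_Σ` is finitely generated for all totally real number fields in `𝓕`. -/
def HoldsFor (p : ℕ) (S : Set ℕ) (𝓕 : Set (IntermediateField ℚ Qa)) : Prop :=
  ∀ F ∈ 𝓕, FiniteDimensional ℚ F → TotReal F → MuZero p S F

theorem result (p : ℕ) [Fact p.Prime] (S : Set ℕ) :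
    DetectionHolds p S ∧
    (∀ 𝓥, SelectsReal p 𝓥 → LocalReduction p S 𝓥 ∧ (HoldsFor p S Set.univ ↔ HoldsFor p S 𝓥)) ∧
    SelectsReal p (PrimeToReal p) := by
  have hsub : ∀ E N : IntermediateField ℚ Qa, FiniteDimensional ℚ N → E ≤ N → MuZero p S N → MuZero p S E := by
    intro E N hN hEN h
    rw [muZero_iff] at h ⊢
    exact h.of_le hEN
  have hbot : (⊥ : IntermediateField ℚ Qa).fixingSubgroup = ⊤ := fixingSubgroup_bot
  have hsel : ∀ 𝓥 : Set (IntermediateField ℚ Qa), SelectsReal p 𝓥 → LocalReduction p S 𝓥 := by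
    rintro 𝓥 h𝓥 N ⟨hN, -, hNn⟩ hNr
    refine ⟨fun h E _ hE => hsub E N hN hE h, fun h => ?_⟩
    rw [muZero_iff]
    exact FGc.reduction' (fam_fam p S) (fun T _ _ _ τ hs hτ => h𝓥 T τ hs ⟨N, hN, hNr, hτ⟩)
      (fun σ => hNn σ (by rw [hbot]; exact Subgroup.mem_top σ))
      fun E hE hEN => muZero_iff.1 (h E hE hEN)
  refine ⟨?_, fun 𝓥 h𝓥 => ⟨hsel 𝓥 h𝓥, fun h E _ => h E (Set.mem_univ E), fun h F _ hF hFr => ?_⟩,
    selectsReal_prime_to p⟩
  · rintro F N ⟨hN, hFN, hNn⟩ 𝓔 hdet
    refine ⟨fun h E hE => hsub E N hN (hdet.1 E hE).2 h, fun h => ?_⟩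
    rw [muZero_iff]
    refine FGc.detect (fam_fam p S) hFN hNn ?_
    intro T _ _ _ τ hτ hs
    obtain ⟨_, ⟨E, hE, rfl⟩, v, hv, hfix⟩ := hdet.2 T τ hτ hs
    exact ⟨E, ⟨(hdet.1 E hE).1, (hdet.1 E hE).2, muZero_iff.1 (h E hE)⟩, v, hv, hfix⟩
  · obtain ⟨N, hN, hFN, hNn, hNr⟩ := exists_real_closure F hFr
    refine hsub F N hN hFN ((hsel 𝓥 h𝓥 N ⟨hN, bot_le, fun σ _ => hNn σ⟩ hNr).2 fun E hE hEN =>
      h E hE ?_ (hNr.mono hEN))
    exact Submodule.finiteDimensional_of_le (S₁ := Subalgebra.toSubmodule E.toSubalgebra)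
      (S₂ := Subalgebra.toSubmodule N.toSubalgebra) hEN

end Pool.Agent.Results.MP_4e64b4_nt.RealVectorFields
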