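import Pool.Agent.Results.MP_4e64b4_nt.RealVectorFields
import Pool.Agent.K1H70.MR.Alg

/-!
# The `μ`-invariants of totally real fields: fields with symmetries and groups of rank one

`Qa` is the field of algebraic numbers and number fields are finite extensions of `ℚ` inside `Qa`. For a number field
`E`, `cyc p E` is its cyclotomic `ℤ_p`-extension `E^cyc`. For a set `S` of prime numbers, `maxExt p S L` is the maximal
abelian pro-`p` extension of `L` which is unramified outside the infinite primes and the primes above the elements
of `S`, and `MuZero p S E` says that the group `X_Σ = Gal(M_Σ/E^cyc)` is topologically finitely generated, that is,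
finitely generated over `ℤ_p`. Here `Σ` is the set of the primes of `E` above `S` and the infinite primes. If `E` is
totally real, `p` is odd and `p ∈ S`, this means `μ_p(E) = 0`. (These definitions are those of the hand-in
`RealVectorFields`, which is used.)

`Few p` (file `Pool.Agent.K1H70.MR.Alg`) is the set of the fields `E = ℚ(v)`, `v ≠ 0` a vector in a simple
`𝔽_p`-representation of `Gal(Qa/ℚ)` with finite image, with the following property. Let `N` be the Galois closure
of `E`. Then

* (`HasSymmetry`) `Gal(N/E)` contains an element of prime order different from `p`, in other words `[N : E]` is not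
  a power of `p`; or
* (`RankOne`) `Gal(N/ℚ)` contains no subgroup `ℤ/l × ℤ/l` for primes `l ≠ p`, and `[E : ℚ]` is not divisible by `p`.
  (If `E` does not have the first property, it is the fixed field of a Sylow `p`-subgroup of `Gal(N/ℚ)`; the Sylow
  `l`-subgroups of `Gal(N/ℚ)` for the other primes `l` are cyclic or generalized quaternion groups.)

Theorem. `X_Σ` is finitely generated for all totally real number fields if and only if it is for the totally real
fields in `Few p`. For a finite totally real Galois extension `N/ℚ` it is finitely generated if and only if it is for
the subfields of `N` in `Few p`.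

So in a minimal counterexample to the conjecture `[N : E]` is not a power of `p`, unless `Gal(N/ℚ)` has rank at most
one at all primes `l ≠ p`: for instance totally real Galois extensions `E/ℚ` need not be considered, except those
of degree prime to `p` whose Galois groups have only cyclic or generalized quaternion Sylow subgroups.

Proof: a simple representation either has a nonzero vector fixed by an element of prime order `l ≠ p` which acts
nontrivially, or all these elements act freely; then there is no `ℤ/l × ℤ/l`, since the sum of the norms of its
subgroups `⟨σ ^ i τ⟩` is `l` plus a multiple of the norm of `⟨σ⟩`, and we take a vector fixed by a Sylow `p`-subgroup.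
-/

set_option autoImplicit false

namespace Pool.Agent.Results.MP_4e64b4_nt.SymmetryOrRankOne

open Pool.Agent.K1H12.MV Pool.Agent.K1H70.MR
open Pool.Agent.Results.MP_4e64b4_nt.RealVectorFields (MuZero)

theorem result (p : ℕ) [Fact p.Prime] (S : Set ℕ) :
    ((∀ F : IntermediateField ℚ Qa, FiniteDimensional ℚ F → TotReal F → MuZero p S F) ↔
      ∀ E ∈ Few p, FiniteDimensional ℚ E → TotReal E → MuZero p S E) ∧
    ∀ N : IntermediateField ℚ Qa, IsGaloisExt ⊥ N → TotReal N →
      (MuZero p S N ↔ ∀ E ∈ Few p, E ≤ N → MuZero p S E) := by
  have hsel : SelectsReal p (Few p) := by
    intro T _ _ _ τ hs hτ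
    obtain ⟨N, hN, -, h⟩ := hτ
    exact selects p T τ hs ⟨N, hN, h⟩
  obtain ⟨h1, h2⟩ := (Pool.Agent.Results.MP_4e64b4_nt.RealVectorFields.result p S).2.1 (Few p) hsel
  refine ⟨⟨fun h E _ => h E, fun h F hF hFr => ?_⟩, h1⟩
  exact h2.2 h F (Set.mem_univ F) hF hFr

end Pool.Agent.Results.MP_4e64b4_nt.SymmetryOrRankOne
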